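import Pool.Agent.TH381.RM2.Cbr
import Pool.Agent.TH381.RM.Asm
import Pool.Agent.TH751.RM.Gen

/-!
FIN: the generating machine of the last part (job RM2-FIN).
-/

set_option autoImplicit false

namespace Pool.Agent.TH304.RM2

open Pool.Agent.H584R2.Dg Pool.Agent.W614.Dg Pool.Agent.H539R2 Pool.Agent.TH381.RM
  Pool.Agent.TH381.RM2

/-- block size -/
def BB (d n : ℕ) : ℕ := d * cbr n

/-- size of the numbers -/
def XX (c d n : ℕ) : ℕ := (48 * BB d n + 24) ^ (c * BB d n)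

theorem BB_pos {d : ℕ} (hd : 1 ≤ d) (n : ℕ) : 1 ≤ BB d n := Nat.mul_pos hd (cbr_pos n)

theorem BB_succ (d n : ℕ) : BB d (n + 1) ≤ 2 * BB d n := by
  unfold BB
  have h1 := cbr_succ n
  have h2 := cbr_pos n
  calc d * cbr (n + 1) ≤ d * (2 * cbr n) := Nat.mul_le_mul_left _ (by omega)
    _ = 2 * (d * cbr n) := by ring

theorem XX_succ (c d n : ℕ) : XX c d (n + 1) ≤ XX c d n ^ 4 := by
  unfold XX
  obtain ⟨B, hB⟩ : ∃ B, B = BB d n := ⟨_, rfl⟩
  obtain ⟨B', hB'⟩ : ∃ B', B' = BB d (n + 1) := ⟨_, rfl⟩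
  have h1 : B' ≤ 2 * B := by rw [hB, hB']; exact BB_succ d n
  rw [← hB, ← hB']
  have h2 : 48 * B' + 24 ≤ (48 * B + 24) ^ 2 := by nlinarith
  calc (48 * B' + 24) ^ (c * B') ≤ ((48 * B + 24) ^ 2) ^ (c * B') := Nat.pow_le_pow_left h2 _
    _ ≤ ((48 * B + 24) ^ 2) ^ (c * (2 * B)) :=
        Nat.pow_le_pow_right (by positivity) (Nat.mul_le_mul_left _ h1)
    _ = ((48 * B + 24) ^ (c * B)) ^ 4 := by
        rw [← pow_mul, ← pow_mul]
        congr 1
        ring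

/-- one step -/
def FF (c d : ℕ) (z : ℕ) : ℕ := Nat.pair ((Nat.unpair z).1 + 1)
  (powT ((Nat.unpair z).2 ^ 4) (48 * (d * cbr ((Nat.unpair z).1 + 1)) + 24)
    (c * (d * cbr ((Nat.unpair z).1 + 1))))

/-- the letter -/
def LL (M : ℕ) (Lt : ℕ → ℕ → ℕ) (z : ℕ) : ℕ := min (Lt (Nat.unpair z).1 (Nat.unpair z).2) M

theorem FF_pair (c d n : ℕ) : FF c d (Nat.pair n (XX c d n)) = Nat.pair (n + 1) (XX c d (n + 1)) := by
  unfold FF
  rw [Nat.unpair_pair]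
  congr 1
  exact powT_eq _ _ _ (by omega) (XX_succ c d n)

theorem FF_iter (c d n : ℕ) : (FF c d)^[n] (Nat.pair 0 (XX c d 0)) = Nat.pair n (XX c d n) := by
  induction n with
  | zero => rfl
  | succ n ih => rw [Function.iterate_succ_apply', ih, FF_pair]

theorem LS_FF (c d : ℕ) : LS (fun ρ => FF c d (ρ 0)) := by
  have h1 := LS.unpair1 (LS.var 0)
  have h2 := LS.unpair2 (LS.var 0)
  have h3 := (LS.const d).mul (LS_cbr h1.succ)
  exact LS.pair h1.succ (LS.powT (ZZ.LS.powc h2 4) (((LS.const 48).mul h3).add (LS.const 24))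
    ((LS.const c).mul h3))

theorem LS_LL (M : ℕ) {Lt : ℕ → ℕ → ℕ} (h : LS (fun ρ => Lt (ρ 0) (ρ 1))) :
    LS (fun ρ => LL M Lt (ρ 0)) := by
  have h1 := LS.unpair1 (LS.var 0)
  have h2 := LS.unpair2 (LS.var 0)
  have h3 : LS (fun ρ => Lt (Nat.unpair (ρ 0)).1 (Nat.unpair (ρ 0)).2) :=
    LS.lett (f := fun ρ' => Lt (Nat.unpair ((tl ρ') 0)).1 (ρ' 0)) h2
      (LS.lett (f := fun ρ' => Lt (ρ' 0) (ρ' 1)) h1.wk h)
  exact LS.min h3 (LS.const M)

theorem lt_XX {c d : ℕ} (hc : 1 ≤ c) (hd : 1 ≤ d) (t : ℕ) : t ≤ XX c d t := by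
  obtain ⟨B, hB⟩ : ∃ B, B = BB d t := ⟨_, rfl⟩
  have h1 : cbr t ≤ B := by
    rw [hB]
    exact Nat.le_mul_of_pos_left _ hd
  unfold XX
  rw [← hB]
  calc t ≤ cbr t ^ 3 := (lt_cbr t).le
    _ ≤ B ^ 3 := Nat.pow_le_pow_left h1 3
    _ ≤ (2 ^ B) ^ 3 := Nat.pow_le_pow_left Nat.lt_two_pow_self.le 3
    _ = 8 ^ B := by rw [← pow_mul, mul_comm, pow_mul]; norm_num
    _ ≤ (48 * B + 24) ^ B := Nat.pow_le_pow_left (by omega) _
    _ ≤ (48 * B + 24) ^ (c * B) :=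
        Nat.pow_le_pow_right (by omega) (Nat.le_mul_of_pos_left _ hc)

theorem XX_ge {c d : ℕ} (hc : 1 ≤ c) (hd : 1 ≤ d) (t : ℕ) : 24 ≤ XX c d t := by
  unfold XX
  have h1 : 1 ≤ c * BB d t := Nat.mul_pos hc (BB_pos hd t)
  calc 24 ≤ (48 * BB d t + 24) ^ 1 := by rw [pow_one]; omega
    _ ≤ _ := Nat.pow_le_pow_right (by omega) h1

theorem pair_le {t X : ℕ} (h : t ≤ X) (hX : 24 ≤ X) : Nat.pair t X + 2 ≤ X ^ 3 := by
  have h1 := Nat.pair_lt_max_add_one_sq t X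
  rw [max_eq_right h] at h1
  have h2 : (X + 1) ^ 2 + 1 ≤ X ^ 3 := by
    have h3 : (X + 1) ^ 2 + 1 ≤ 24 * X ^ 2 := by nlinarith
    calc (X + 1) ^ 2 + 1 ≤ 24 * X ^ 2 := h3
      _ ≤ X * X ^ 2 := Nat.mul_le_mul_right _ hX
      _ = X ^ 3 := by ring
  omega

theorem cbrt_facts {n : ℕ} (hn : 1 ≤ n) : ∃ r : ℝ, r = (n : ℝ) ^ (1 / 3 : ℝ) ∧ 1 ≤ r ∧
    r ^ 3 = n ∧ r ≤ n := by
  have hn' : (1 : ℝ) ≤ n := by exact_mod_cast hn
  refine ⟨_, rfl, Real.one_le_rpow hn' (by norm_num), ?_, ?_⟩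
  · rw [← Real.rpow_natCast, ← Real.rpow_mul (by linarith)]
    norm_num
  · calc (n : ℝ) ^ (1 / 3 : ℝ) ≤ (n : ℝ) ^ (1 : ℝ) :=
        Real.rpow_le_rpow_of_exponent_le hn' (by norm_num)
      _ = n := Real.rpow_one _

theorem BB_le {d n t : ℕ} {r : ℝ} (hr : 1 ≤ r) (hrn : r ^ 3 = n) (ht : t ≤ n) :
    (BB d t : ℝ) ≤ 2 * d * r := by
  have h1 : ((cbr t - 1 : ℕ) : ℝ) ^ 3 ≤ r ^ 3 := by
    rw [hrn]
    have := (cbr_le t).trans ht
    exact_mod_cast this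
  have h2 : ((cbr t - 1 : ℕ) : ℝ) ≤ r := le_of_pow_le_pow_left₀ (by norm_num) (by linarith) h1
  have h3 : (cbr t : ℝ) ≤ 2 * r := by
    have h4 := cbr_pos t
    rw [Nat.cast_sub h4] at h2
    push_cast at h2
    linarith
  unfold BB
  push_cast
  have h5 : (0 : ℝ) ≤ d := Nat.cast_nonneg d
  nlinarith

theorem log_le {d n t : ℕ} (hd : 1 ≤ d) (hn : 1 ≤ n) {r : ℝ} (hr : 1 ≤ r) (hrn : r ^ 3 = n)
    (hrle : r ≤ n) (ht : t ≤ n) :
    Real.log (48 * (BB d t : ℝ) + 24) ≤ (Real.log (120 * d) + 1) * (Real.log n + 1) := by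
  have h1 := BB_le (d := d) hr hrn ht
  have hd' : (1 : ℝ) ≤ d := by exact_mod_cast hd
  have hn' : (1 : ℝ) ≤ n := by exact_mod_cast hn
  have hB : (0 : ℝ) ≤ BB d t := Nat.cast_nonneg _
  have h2 : 48 * (BB d t : ℝ) + 24 ≤ 120 * d * n := by
    have h3 : (d : ℝ) * r ≤ d * n := mul_le_mul_of_nonneg_left hrle (by linarith)
    have h4 : (1 : ℝ) ≤ d * n := by nlinarith
    calc 48 * (BB d t : ℝ) + 24 ≤ 96 * (d * r) + 24 := by linarith
      _ ≤ 96 * (d * n) + 24 * (d * n) := by linarith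
      _ = 120 * d * n := by ring
  have h3 : Real.log (48 * (BB d t : ℝ) + 24) ≤ Real.log (120 * d) + Real.log n := by
    rw [← Real.log_mul (by positivity) (by positivity)]
    exact Real.log_le_log (by positivity) h2
  have h4 : 0 ≤ Real.log (120 * (d : ℝ)) := Real.log_nonneg (by linarith)
  have h5 : 0 ≤ Real.log n := Real.log_nonneg hn'
  have h6 := mul_nonneg h4 h5
  have h7 : (Real.log (120 * d) + 1) * (Real.log n + 1) =
      Real.log (120 * d) * Real.log n + Real.log (120 * d) + Real.log n + 1 := by ring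
  rw [h7]
  linarith

theorem space {c d : ℕ} (hc : 1 ≤ c) (hd : 1 ≤ d) {n t : ℕ} (hn : 1 ≤ n) (ht : t ≤ n) :
    Real.log ((Nat.pair t (XX c d t) : ℕ) + 2) ≤
      (6 * c * d * (Real.log (120 * d) + 1)) * ((n : ℝ) ^ (1 / 3 : ℝ) * (Real.log n + 1)) := by
  obtain ⟨r, hr0, hr1, hr3, hrn⟩ := cbrt_facts hn
  rw [← hr0]
  obtain ⟨X, hX⟩ : ∃ X, X = XX c d t := ⟨_, rfl⟩
  have h1 : Nat.pair t X + 2 ≤ X ^ 3 := by
    rw [hX]
    exact pair_le (lt_XX hc hd t) (XX_ge hc hd t)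
  have h2 : Real.log ((Nat.pair t X : ℕ) + 2) ≤ 3 * Real.log (X : ℝ) := by
    rw [show (3 : ℝ) = ((3 : ℕ) : ℝ) by norm_num, ← Real.log_pow]
    apply Real.log_le_log (by positivity)
    exact_mod_cast h1
  have h3 : Real.log (X : ℝ) = c * BB d t * Real.log (48 * (BB d t : ℝ) + 24) := by
    rw [hX]
    unfold XX
    push_cast
    rw [Real.log_pow]
    push_cast
    ring
  have h4 := BB_le (d := d) hr1 hr3 ht
  have h5 := log_le hd hn hr1 hr3 hrn ht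
  have hB : (0 : ℝ) ≤ BB d t := Nat.cast_nonneg _
  have h6 : 0 ≤ Real.log (48 * (BB d t : ℝ) + 24) := Real.log_nonneg (by linarith)
  have hc0 : (0 : ℝ) ≤ c := Nat.cast_nonneg c
  have hd0 : (0 : ℝ) ≤ d := Nat.cast_nonneg d
  rw [← hX]
  calc Real.log ((Nat.pair t X : ℕ) + 2) ≤ 3 * Real.log (X : ℝ) := h2
    _ = 3 * c * (BB d t * Real.log (48 * (BB d t : ℝ) + 24)) := by rw [h3]; ring
    _ ≤ 3 * c * ((2 * d * r) * ((Real.log (120 * d) + 1) * (Real.log n + 1))) := by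
        apply mul_le_mul_of_nonneg_left _ (by positivity)
        exact mul_le_mul h4 h5 h6 (by positivity)
    _ = _ := by ring

theorem fin : Pool.Agent.TH381.RM2.SFin := by
  intro S w M c d co e Lt hco hc hd hLt hw
  have hval : ∀ n, e (LL M Lt ((FF c d)^[n] (Nat.pair 0 (XX c d 0)))) = some (w n) := by
    intro n
    rw [FF_iter]
    unfold LL
    rw [Nat.unpair_pair]
    rw [hw n (XX c d n) le_rfl, min_eq_left (hco.lt _).le]
    exact hco.inv _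
  have hlist : ∀ t, (List.range t).filterMap
      (fun i => e (LL M Lt ((FF c d)^[i] (Nat.pair 0 (XX c d 0))))) = (List.range t).map w := by
    intro t
    rw [← List.filterMap_eq_map]
    apply List.filterMap_congr
    intro i _
    exact hval i
  obtain ⟨k, Mc, C', hM, hs⟩ := TH751.RM.gen S (FF c d) (LL M Lt) M e (Nat.pair 0 (XX c d 0)) w
    (fun n => (6 * c * d * (Real.log (120 * d) + 1)) *
      ((n : ℝ) ^ (1 / 3 : ℝ) * (Real.log n + 1))) (LS_FF c d) (LS_LL M hLt)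
    (fun z => min_le_right _ _)
    (by
      intro t
      rw [hlist]
      exact map_range_isPre w t)
    (by
      intro n
      refine ⟨n, ?_⟩
      rw [hlist]
      simp)
    (by
      intro n hn t ht
      rw [hlist, List.length_map, List.length_range] at ht
      rw [FF_iter]
      exact space hc hd hn ht.le)
  refine ⟨k, Mc, C' * (6 * c * d * (Real.log (120 * d) + 1)), hM, ?_⟩
  intro n hn
  rw [mul_assoc]
  exact hs n hn

end Pool.Agent.TH304.RM2
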